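import Pool.Agent.R352.CV.Limit

/-! MP_143e3a_nt: the variance of the coprime count in a random `M × M` block of lattice
points is at most its mean; in particular it is at most `M ^ 2`. -/

namespace Pool.Agent.Results.MP_143e3a_nt.CoprimeVariance

open Finset Filter Topology

/-- `Z M a b`: the number of coprime pairs `(i, j)` with `a + 1 ≤ i ≤ a + M`,
`b + 1 ≤ j ≤ b + M`. -/
def Z (M a b : ℕ) : ℕ :=
  ((Icc (a + 1) (a + M) ×ˢ Icc (b + 1) (b + M)).filter (fun x => Nat.gcd x.1 x.2 = 1)).card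

/-- `cnt M n r`: the number of pairs `(a, b)` in `{1, ..., n} ^ 2` with `Z M a b = r`. -/
def cnt (M n r : ℕ) : ℕ :=
  ((Icc 1 n ×ˢ Icc 1 n).filter (fun x => Z M x.1 x.2 = r)).card

theorem Z_eq (M a b : ℕ) : Z M a b = R352.CV.Z0 M a b := by
  unfold Z R352.CV.Z0
  symm
  refine Finset.card_bij (fun x _ => (a + (x.1 + 1), b + (x.2 + 1))) ?_ ?_ ?_
  · intro x hx
    simp only [mem_filter, mem_product, mem_range, mem_Icc] at hx ⊢
    exact ⟨by omega, hx.2⟩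
  · rintro ⟨x1, x2⟩ _ ⟨y1, y2⟩ _ h
    simp only [Prod.mk.injEq] at h ⊢
    omega
  · rintro ⟨u, v⟩ hx
    simp only [mem_filter, mem_product, mem_Icc] at hx
    refine ⟨(u - a - 1, v - b - 1), ?_, ?_⟩
    · simp only [mem_filter, mem_product, mem_range]
      refine ⟨by omega, ?_⟩
      rw [show a + (u - a - 1 + 1) = u by omega, show b + (v - b - 1 + 1) = v by omega]
      exact hx.2
    · simp only [Prod.mk.injEq]
      omega

/-- For every `M ≥ 1` the limit law `p` of the coprime count exists, it is a probability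
distribution on `{0, ..., M ^ 2}`, and its variance is at most its mean, hence at most
`M ^ 2`: the bound `V(Z) ≤ C M ^ 2` holds with `C = 1`. -/
theorem result : ∀ M : ℕ, 1 ≤ M → ∃ p : ℕ → ℝ,
    (∀ r, Tendsto (fun n : ℕ => (cnt M n r : ℝ) / (n : ℝ) ^ 2) atTop (𝓝 (p r))) ∧
    (∑ r ∈ range (M ^ 2 + 1), p r = 1) ∧
    ((∑ r ∈ range (M ^ 2 + 1), (r : ℝ) ^ 2 * p r) -
      (∑ r ∈ range (M ^ 2 + 1), (r : ℝ) * p r) ^ 2 ≤
        ∑ r ∈ range (M ^ 2 + 1), (r : ℝ) * p r) ∧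
    ((∑ r ∈ range (M ^ 2 + 1), (r : ℝ) ^ 2 * p r) -
      (∑ r ∈ range (M ^ 2 + 1), (r : ℝ) * p r) ^ 2 ≤ (M : ℝ) ^ 2) := by
  intro M _
  obtain ⟨p, h1, h2, h3⟩ := R352.CV.main M
  have hcnt : ∀ n r, cnt M n r = R352.CV.cnt0 (R352.CV.Z0 M) n r := by
    intro n r
    unfold cnt R352.CV.cnt0
    simp only [Z_eq]
  have h1' : ∀ r, Tendsto (fun n : ℕ => (cnt M n r : ℝ) / (n : ℝ) ^ 2) atTop (𝓝 (p r)) := by
    intro r
    simp only [hcnt]
    exact h1 r
  refine ⟨p, h1', h2, h3, h3.trans ?_⟩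
  have hp : ∀ r, 0 ≤ p r := fun r =>
    ge_of_tendsto' (h1' r) fun n => by positivity
  calc ∑ r ∈ range (M ^ 2 + 1), (r : ℝ) * p r
      ≤ ∑ r ∈ range (M ^ 2 + 1), ((M : ℝ) ^ 2) * p r := by
        refine Finset.sum_le_sum fun r hr => ?_
        have h4 : r ≤ M ^ 2 := Nat.lt_succ_iff.1 (mem_range.1 hr)
        have h5 : (r : ℝ) ≤ (M : ℝ) ^ 2 := by exact_mod_cast h4
        exact mul_le_mul_of_nonneg_right h5 (hp r)
    _ = (M : ℝ) ^ 2 := by
        rw [← Finset.mul_sum, h2, mul_one]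

end Pool.Agent.Results.MP_143e3a_nt.CoprimeVariance
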